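import Mathlib
import Pool.Agent.H.MP_027f17_mp.A

namespace Pool.Agent.Results.MP_027f17_mp.NoLaws

open MvPolynomial Pool.Agent.Lib.helper12 Pool.Agent.H.MP_027f17_mp

/-- polynomial functions of `u^1, u^2, u^3` -/
abbrev Fn := MvPolynomial (Fin 3) ℝ

abbrev Con := Fin 3 → Fin 3 → Fin 3 → Fn

abbrev Ten := Fin 3 → Fin 3 → Fin 3 → Fin 3 → Fn

/-- coefficient of the cubic term -/
noncomputable def cub (α : Con) (β : Ten) : Ten := fun i j k m =>
  pderiv j (α i k m) + 2 * ∑ r, α i j r * α r k m - ∑ r, α i r j * α r k m + β i j k m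

/-- right-hand side of the system -/
noncomputable def rhs {A : Type} [CommRing A] [Algebra ℝ A] (J : Jet 3 A) (α : Con) (β : Ten)
    (i : Fin 3) : A :=
  J.x i 3 + 3 * ∑ j, ∑ k, aeval (J.x · 0) (α i j k) * J.x j 1 * J.x k 2 +
    ∑ j, ∑ k, ∑ m, aeval (J.x · 0) (cub α β i j k m) * J.x j 1 * J.x k 1 * J.x m 1

noncomputable def curv (α : Con) : Ten := fun i j k l =>
  pderiv k (α i j l) - pderiv l (α i j k) + ∑ s, α i s k * α s j l - ∑ s, α i s l * α s j k

/-- covariant derivative of a `(1,3)` tensor -/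
noncomputable def cov (α : Con) (S : Ten) (l : Fin 3) : Ten := fun i j k m =>
  pderiv l (S i j k m) + ∑ s, (α i s l * S s j k m - α s j l * S i s k m - α s k l * S i j s m -
    α s m l * S i j k s)

/-- a `(1,3)` tensor as a trilinear operation on vector fields -/
noncomputable def tri (S : Ten) (x y z : Fin 3 → Fn) : Fin 3 → Fn := fun i =>
  ∑ j, ∑ k, ∑ l, S i j k l * x j * y k * z l

noncomputable def sig (α : Con) (β : Ten) : Ten := fun i j k l =>
  β i j k l - (1 / 3 : ℝ) • curv α i j k l + (1 / 3 : ℝ) • curv α i l j k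

/-- conditions (C1)-(C5) for curvature `R` and the tensor `σ` -/
def Cond (α : Con) (R σ : Ten) : Prop :=
  cov α R = 0 ∧ cov α σ = 0 ∧ (∀ x y z, tri R x y z = tri σ x z y - tri σ x y z) ∧
    (∀ x y z, tri σ x y z = tri σ z y x) ∧
    ∀ x y z v w, tri σ x (tri σ y z v) w - tri σ w v (tri σ x y z) + tri σ z y (tri σ x v w) -
      tri σ x v (tri σ z y w) = 0

noncomputable def bb : Ten :=
  ![0, 0, ![![![0, 1, 0], ![1, 0, 0], 0], ![![1, 0, 0], 0, 0], 0]]

theorem result : ∃ (α : Con) (β : Ten), (∀ i j k, α i j k = α i k j) ∧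
    (∀ i j k m, β i j k m = β i k j m ∧ β i j k m = β i j m k) ∧ Cond α (curv α) (sig α β) ∧
    ∀ (A : Type) [CommRing A] [Algebra ℝ A] (J : Jet 3 A) (ρ : A) (k : ℕ), 1 ≤ k →
      (∀ i n, k < n → J.d i n ρ = 0) → (∃ s, J.ev (rhs J α β) ρ = J.D s) →
      (Matrix.of fun i j => J.d i k (J.d j k ρ)).det = 0 := by
  have c : curv 0 = 0 := by funext i j k l; simp [curv]
  have s : sig 0 bb = bb := by funext i j k l; simp [sig, c]
  have t : ∀ x y z, tri bb x y z = ![0, 0, x 0 * y 0 * z 1 + x 0 * y 1 * z 0 + x 1 * y 0 * z 0] := by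
    intro x y z
    funext i
    fin_cases i <;> simp [tri, bb, Fin.sum_univ_three]
  refine ⟨0, bb, fun _ _ _ => rfl, fun i j k m => ?_, ?_, fun A _ _ J ρ k hk b h => ?_⟩
  · fin_cases i <;> fin_cases j <;> fin_cases k <;> fin_cases m <;> simp [bb]
  · rw [c, s]
    refine ⟨?_, ?_, fun x y z => ?_, fun x y z => ?_, fun x y z v w => ?_⟩
    · funext l i j k m; simp [cov]
    · funext l i j k m
      fin_cases i <;> fin_cases j <;> fin_cases k <;> fin_cases m <;> simp [cov, bb]
    · rw [t, t]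
      funext i
      fin_cases i <;> simp [tri]
      ring
    · rw [t, t]
      congr 3
      ring
    · simp [t]
  · have e : rhs J 0 bb = F J := by
      funext i
      fin_cases i <;> simp [rhs, cub, bb, F, Cc, Fin.sum_univ_three]
      ring
    rw [e] at h
    exact Matrix.det_eq_zero_of_row_eq_zero 2 (main J hk b h)

end Pool.Agent.Results.MP_027f17_mp.NoLaws
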